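import Mathlib

/-!
# Polynomial value sets recognisable in abstract numeration systems

If `P(ℕ)` is `S`-recognisable for an abstract numeration system `S = (L, A, <)` and `deg P ≥ 2`,
then the language `L` is polynomial.

Idea of the proof. Take automata for `L` and for `M = rep_S(P(ℕ))`. If a pair `(q, r)` of states is
reached by infinitely many words `p` and `v < v'` are two words of the same length accepted
from `r`, then `val (p v') - val (p v)` is the number of words `v ≤ u < v'` of that length accepted
from `q`, hence it does not depend on `p`. As the gaps of `P(ℕ)` tend to infinity this is impossible.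
So from all but finitely many prefixes at most one word of each length is accepted, whence `M` has
`O(1)` words of each length, `P(ℕ)` has `O(n)` elements represented by words of length `≤ n`,
and so `L` has `O(n ^ deg P)` words of length `≤ n`.
-/

set_option autoImplicit false
set_option linter.unusedSectionVars false
set_option linter.unusedVariables false

namespace Pool.Agent.Results.MP_8c22a7_lc.PolynomialLanguage

open Set

universe u

/-- An abstract numeration system over the finite totally ordered alphabet `A`: an infinite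
regular language `lang` over `A`. -/
structure ANS (A : Type u) where
  /-- the language `L` -/
  lang : Language A
  regular : lang.IsRegular
  infinite : (lang : Set (List A)).Infinite

variable {A : Type u} [Fintype A] [LinearOrder A]

/-- The genealogical (radix) order on words: shorter words come first, words of equal length are
compared lexicographically. -/
def Radix (v w : List A) : Prop := List.Shortlex (· < ·) v w

/-- `val_S w`, for `w ∈ L`: the number of words of `L` that come before `w`. -/
noncomputable def ANS.val (S : ANS A) (w : List A) : ℕ :=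
  {v : List A | v ∈ S.lang ∧ Radix v w}.ncard

/-- `rep_S(X)`: the language of the representations of the elements of `X`. -/
def ANS.rep (S : ANS A) (X : Set ℕ) : Language A := {w | w ∈ S.lang ∧ S.val w ∈ X}

/-- `X` is `S`-recognisable: the language `rep_S(X)` is regular. -/
def ANS.Recognisable (S : ANS A) (X : Set ℕ) : Prop := (S.rep X).IsRegular

/-- A language is polynomial: for some `k` it has `O(n ^ k)` words of length `n`. -/
def IsPolynomial (L : Language A) : Prop :=
  ∃ k : ℕ, (fun n : ℕ => (({w : List A | w ∈ L ∧ w.length = n}.ncard : ℕ) : ℝ))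
    =O[Filter.atTop] fun n : ℕ => (n : ℝ) ^ k

/-! ### Basic facts on the radix order -/

theorem finite_le (n : ℕ) : {w : List A | w.length ≤ n}.Finite := by
  have := List.finite_length_le A n
  exact this

theorem finite_eq (n : ℕ) : {w : List A | w.length = n}.Finite :=
  (finite_le n).subset (fun w hw => le_of_eq hw)

theorem Radix.length_le {v w : List A} (h : Radix v w) : v.length ≤ w.length := by
  rcases List.shortlex_def.1 h with h | h
  · exact h.le
  · exact h.1.le

theorem Radix.irrefl (v : List A) : ¬ Radix v v := by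
  intro h
  exact (asymm_of (List.Shortlex (α := A) (· < ·)) h h)

theorem Radix.asymm {v w : List A} (h : Radix v w) : ¬ Radix w v := by
  intro h'
  exact (asymm_of (List.Shortlex (α := A) (· < ·)) h h')

theorem radix_iff {v w : List A} :
    Radix v w ↔ v.length < w.length ∨ (v.length = w.length ∧ List.Lex (· < ·) v w) :=
  List.shortlex_def

theorem Radix.trans {u v w : List A} (h : Radix u v) (h' : Radix v w) : Radix u w := by
  rw [radix_iff] at *
  rcases h with h | ⟨h1, h2⟩ <;> rcases h' with h' | ⟨h1', h2'⟩
  · left; omega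
  · left; omega
  · left; omega
  · right
    refine ⟨by omega, ?_⟩
    have h3 : u < v := h2
    have h4 : v < w := h2'
    exact (h3.trans h4 : u < w)

theorem radix_tri (v w : List A) : Radix v w ∨ v = w ∨ Radix w v := by
  rcases lt_trichotomy v.length w.length with h | h | h
  · exact Or.inl (radix_iff.2 (Or.inl h))
  · rcases trichotomous_of (List.Lex ((· < ·) : A → A → Prop)) v w with h' | h' | h'
    · exact Or.inl (radix_iff.2 (Or.inr ⟨h, h'⟩))
    · exact Or.inr (Or.inl h')
    · exact Or.inr (Or.inr (radix_iff.2 (Or.inr ⟨h.symm, h'⟩)))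
  · exact Or.inr (Or.inr (radix_iff.2 (Or.inl h)))

theorem finite_radix (w : List A) : {v : List A | Radix v w}.Finite :=
  (finite_le w.length).subset (fun _ hv => Radix.length_le hv)

theorem lex_append_iff (p : List A) (v w : List A) :
    List.Lex (· < ·) (p ++ v) (p ++ w) ↔ List.Lex (· < ·) v w := by
  induction p with
  | nil => simp
  | cons a p ih =>
    rw [List.cons_append, List.cons_append, List.lex_cons_iff, ih]

theorem radix_append_iff (p : List A) (v w : List A) :
    Radix (p ++ v) (p ++ w) ↔ Radix v w := by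
  rw [radix_iff, radix_iff, lex_append_iff]
  simp

/-- A word between `p v` and `p w` (of the same length) has the prefix `p`. -/
theorem between (p : List A) : ∀ (v w u : List A), v.length = w.length →
    ¬ Radix u (p ++ v) → Radix u (p ++ w) → ∃ u', u = p ++ u' := by
  induction p with
  | nil => intro v w u _ _ _; exact ⟨u, rfl⟩
  | cons a p ih =>
    intro v w u hvw h1 h2
    have hlen : u.length = (a :: p ++ w).length := by
      rcases radix_iff.1 h2 with h | h
      · exfalso
        apply h1
        rw [radix_iff]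
        left
        simp only [List.cons_append, List.length_cons, List.length_append] at h ⊢
        omega
      · exact h.1
    cases u with
    | nil => simp at hlen
    | cons b u =>
      have hlt : List.Lex (· < ·) (b :: u) (a :: (p ++ w)) := by
        rcases radix_iff.1 h2 with h | h
        · omega
        · exact h.2
      have hnl : ¬ List.Lex (· < ·) (b :: u) (a :: (p ++ v)) := by
        intro h
        apply h1
        rw [radix_iff]
        right
        refine ⟨?_, h⟩
        simp only [List.cons_append, List.length_cons, List.length_append] at hlen ⊢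
        omega
      have hab : b = a := by
        rcases lt_trichotomy a b with h | h | h
        · exfalso
          cases hlt with
          | rel h' => exact absurd h' (not_lt_of_gt h)
          | cons h' => exact lt_irrefl _ h
        · exact h.symm
        · exfalso
          exact hnl (List.Lex.rel h)
      subst hab
      have h2' : Radix u (p ++ w) := by
        rw [radix_iff]
        right
        refine ⟨by simpa using hlen, ?_⟩
        exact List.lex_cons_iff.1 hlt
      have h1' : ¬ Radix u (p ++ v) := by
        intro h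
        apply h1
        rw [radix_iff] at h ⊢
        rcases h with h | h
        · left
          simpa using h
        · right
          refine ⟨by simpa using h.1, ?_⟩
          exact List.Lex.cons h.2
      obtain ⟨u', hu'⟩ := ih v w u hvw h1' h2'
      exact ⟨u', by rw [hu', List.cons_append]⟩

/-! ### The valuation -/

theorem finite_lower (S : ANS A) (w : List A) : {v : List A | v ∈ S.lang ∧ Radix v w}.Finite :=
  (finite_radix w).subset (fun _ hv => hv.2)

theorem val_lt_val (S : ANS A) {v w : List A} (hv : v ∈ S.lang) (h : Radix v w) :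
    S.val v < S.val w := by
  apply Set.ncard_lt_ncard _ (finite_lower S w)
  refine ⟨fun x hx => ⟨hx.1, hx.2.trans h⟩, fun hsub => ?_⟩
  exact Radix.irrefl v (hsub ⟨hv, h⟩).2

theorem val_lt_iff (S : ANS A) {v w : List A} (hv : v ∈ S.lang) (hw : w ∈ S.lang) :
    S.val v < S.val w ↔ Radix v w := by
  constructor
  · intro h
    rcases radix_tri v w with h' | h' | h'
    · exact h'
    · subst h'; exact absurd h (lt_irrefl _)
    · exact absurd (val_lt_val S hw h') (by omega)
  · exact val_lt_val S hv

theorem val_injOn (S : ANS A) : Set.InjOn S.val {w | w ∈ S.lang} := by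
  intro v hv w hw h
  rcases radix_tri v w with h' | h' | h'
  · exact absurd (val_lt_val S hv h') (by omega)
  · exact h'
  · exact absurd (val_lt_val S hw h') (by omega)

/-- The words of `L` of length at most `n` are those of value less than their number. -/
theorem val_lt_card_iff (S : ANS A) {w : List A} (hw : w ∈ S.lang) (n : ℕ) :
    S.val w < {v : List A | v ∈ S.lang ∧ v.length ≤ n}.ncard ↔ w.length ≤ n := by
  have hfin : {v : List A | v ∈ S.lang ∧ v.length ≤ n}.Finite :=
    (finite_le n).subset (fun _ hv => hv.2)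
  constructor
  · intro h
    by_contra hn
    have : {v : List A | v ∈ S.lang ∧ v.length ≤ n}.ncard ≤ S.val w := by
      apply Set.ncard_le_ncard _ (finite_lower S w)
      intro v hv
      exact ⟨hv.1, radix_iff.2 (Or.inl (lt_of_le_of_lt hv.2 (not_le.1 hn)))⟩
    omega
  · intro h
    apply Set.ncard_lt_ncard _ hfin
    refine ⟨fun v hv => ⟨hv.1, hv.2.length_le.trans h⟩, fun hsub => ?_⟩
    exact Radix.irrefl w (hsub ⟨hw, h⟩).2

/-- `val_S` is a bijection from `L` onto `ℕ`, so that `rep_S` is well defined. -/
theorem val_bijOn (S : ANS A) : Set.BijOn S.val {w | w ∈ S.lang} Set.univ := by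
  refine ⟨fun _ _ => Set.mem_univ _, val_injOn S, ?_⟩
  intro n _
  by_contra hn
  -- the image of `val` is a lower set: take the least missing value
  have hex : ∃ m, m ∉ S.val '' {w | w ∈ S.lang} := ⟨n, hn⟩
  classical
  set m := Nat.find hex with hm
  have hm1 : m ∉ S.val '' {w | w ∈ S.lang} := Nat.find_spec hex
  have hbig : ∀ w ∈ S.lang, S.val w < m := by
    intro w hw
    by_contra hlt
    have hwm : m < S.val w := by
      rcases Nat.lt_or_ge m (S.val w) with h | h
      · exact h
      · exfalso
        apply hm1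
        exact ⟨w, hw, by omega⟩
    -- the words below `w` have distinct values, all different from `m`, below `val w`
    have hinj : Set.InjOn S.val {v : List A | v ∈ S.lang ∧ Radix v w} :=
      (val_injOn S).mono (fun v hv => hv.1)
    have hcard : (S.val '' {v : List A | v ∈ S.lang ∧ Radix v w}).ncard = S.val w := by
      rw [hinj.ncard_image]
      rfl
    have hsub : S.val '' {v : List A | v ∈ S.lang ∧ Radix v w} ⊆ Set.Iio (S.val w) \ {m} := by
      rintro _ ⟨v, hv, rfl⟩
      refine ⟨val_lt_val S hv.1 hv.2, ?_⟩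
      intro h
      exact hm1 ⟨v, hv.1, h⟩
    have h1 := Set.ncard_le_ncard hsub ((Set.finite_Iio _).subset Set.sdiff_subset)
    rw [hcard, Set.ncard_sdiff_singleton_of_mem (by exact hwm)] at h1
    rw [Set.ncard_eq_toFinset_card' , Set.toFinset_Iio, Nat.card_Iio] at h1
    omega
  have hfin : ({w | w ∈ S.lang} : Set (List A)).Finite := by
    apply Set.Finite.of_finite_image _ (val_injOn S)
    apply (Set.finite_Iio m).subset
    rintro _ ⟨w, hw, rfl⟩
    exact hbig w hw
  exact S.infinite hfin

/-- The difference of the values of `p w` and `p v` depends only on the state reached by `p`. -/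
theorem val_append {σ : Type} (M : DFA A σ) (S : ANS A) (hM : M.accepts = S.lang)
    (p v w : List A) (hvw : v.length = w.length) (hlt : Radix v w) :
    S.val (p ++ w) = S.val (p ++ v) +
      {u : List A | M.evalFrom (M.eval p) u ∈ M.accept ∧ ¬ Radix u v ∧ Radix u w}.ncard := by
  have hmem : ∀ u, p ++ u ∈ S.lang ↔ M.evalFrom (M.eval p) u ∈ M.accept := by
    intro u
    rw [← hM, DFA.mem_accepts, DFA.eval, DFA.evalFrom_of_append]
  have hset : {x : List A | x ∈ S.lang ∧ Radix x (p ++ w)} =
      {x : List A | x ∈ S.lang ∧ Radix x (p ++ v)} ∪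
        (fun u => p ++ u) '' {u : List A | M.evalFrom (M.eval p) u ∈ M.accept ∧
          ¬ Radix u v ∧ Radix u w} := by
    ext x
    constructor
    · rintro ⟨h1, h2⟩
      by_cases h3 : Radix x (p ++ v)
      · exact Or.inl ⟨h1, h3⟩
      · right
        obtain ⟨u, rfl⟩ := between p v w x hvw h3 h2
        refine ⟨u, ⟨(hmem u).1 h1, ?_, ?_⟩, rfl⟩
        · rwa [radix_append_iff] at h3
        · rwa [radix_append_iff] at h2
    · rintro (⟨h1, h2⟩ | ⟨u, ⟨h1, h2, h3⟩, rfl⟩)
      · exact ⟨h1, h2.trans ((radix_append_iff p v w).2 hlt)⟩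
      · exact ⟨(hmem u).2 h1, (radix_append_iff p u w).2 h3⟩
  have hdisj : Disjoint {x : List A | x ∈ S.lang ∧ Radix x (p ++ v)}
      ((fun u => p ++ u) '' {u : List A | M.evalFrom (M.eval p) u ∈ M.accept ∧
          ¬ Radix u v ∧ Radix u w}) := by
    rw [Set.disjoint_left]
    rintro _ ⟨_, h2⟩ ⟨u, ⟨_, h4, _⟩, rfl⟩
    exact h4 ((radix_append_iff p u v).1 h2)
  have hfin2 : {u : List A | M.evalFrom (M.eval p) u ∈ M.accept ∧
          ¬ Radix u v ∧ Radix u w}.Finite := (finite_radix w).subset (fun _ hu => hu.2.2)
  unfold ANS.val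
  rw [hset, Set.ncard_union_eq hdisj (finite_lower S _) (hfin2.image _),
    Set.ncard_image_of_injective _ (fun a b h => List.append_cancel_left h)]

/-! ### The main counting argument -/

/-- `X` has gaps tending to infinity. -/
def Sparse (X : Set ℕ) : Prop := ∀ D : ℕ, 0 < D → {x : ℕ | x ∈ X ∧ x + D ∈ X}.Finite

theorem eq_of_infinite {σ τ : Type} (M : DFA A σ) (S : ANS A) (hM : M.accepts = S.lang)
    (X : Set ℕ) (hX : Sparse X) (N : DFA A τ) (hN : N.accepts = S.rep X) (q : σ) (r : τ)
    (hinf : {p : List A | M.eval p = q ∧ N.eval p = r}.Infinite) (v w : List A)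
    (hvw : v.length = w.length) (hv : N.evalFrom r v ∈ N.accept)
    (hw : N.evalFrom r w ∈ N.accept) : v = w := by
  -- it is enough to exclude `v < w`
  have key : ∀ v w : List A, v.length = w.length → N.evalFrom r v ∈ N.accept →
      N.evalFrom r w ∈ N.accept → ¬ Radix v w := by
    intro v w hvw hv hw hlt
    have hmem : ∀ p u, N.eval p = r → N.evalFrom r u ∈ N.accept → p ++ u ∈ S.rep X := by
      intro p u hp hu
      rw [← hN, DFA.mem_accepts, DFA.eval, DFA.evalFrom_of_append]
      change N.evalFrom (N.eval p) u ∈ N.accept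
      rw [hp]; exact hu
    obtain ⟨p0, hp0⟩ := hinf.nonempty
    set D := {u : List A | M.evalFrom q u ∈ M.accept ∧ ¬ Radix u v ∧ Radix u w}.ncard with hD
    have hDpos : 0 < D := by
      rw [hD, Set.ncard_pos ((finite_radix w).subset (fun _ hu => hu.2.2))]
      refine ⟨v, ?_, Radix.irrefl v, hlt⟩
      have h1 := (hmem p0 v hp0.2 hv).1
      rw [← hM, DFA.mem_accepts, DFA.eval, DFA.evalFrom_of_append] at h1
      change M.evalFrom (M.eval p0) v ∈ M.accept at h1
      rwa [hp0.1] at h1
    apply hinf
    apply Set.Finite.of_finite_image (f := fun p => S.val (p ++ v)) _ ?_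
    · apply (hX D hDpos).subset
      rintro _ ⟨p, ⟨hp1, hp2⟩, rfl⟩
      refine ⟨(hmem p v hp2 hv).2, ?_⟩
      have h3 := val_append M S hM p v w hvw hlt
      rw [hp1] at h3
      change S.val (p ++ v) + D ∈ X
      rw [hD, ← h3]
      exact (hmem p w hp2 hw).2
    · intro p hp p' hp' h
      have h4 := val_injOn S (hmem p v hp.2 hv).1 (hmem p' v hp'.2 hv).1 h
      exact List.append_cancel_right h4
  rcases radix_tri v w with h | h | h
  · exact absurd h (key v w hvw hv hw)
  · exact h
  · exact absurd h (key w v hvw.symm hw hv)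

/-- The representations of a recognisable set with gaps tending to infinity: boundedly many of
each length. -/
theorem slender (S : ANS A) (X : Set ℕ) (hX : Sparse X) (hrec : S.Recognisable X) :
    ∃ K : ℕ, ∀ n : ℕ, {w : List A | w ∈ S.rep X ∧ w.length = n}.ncard ≤ K := by
  classical
  obtain ⟨σ, _, M, hM⟩ := S.regular
  obtain ⟨τ, _, N, hN⟩ := hrec
  -- the words leading to a pair of states reached by finitely many words only
  have hfin : (⋃ s : {s : σ × τ // {p : List A | M.eval p = s.1 ∧ N.eval p = s.2}.Finite},
      {p : List A | M.eval p = s.1.1 ∧ N.eval p = s.1.2}).Finite :=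
    Set.finite_iUnion (fun s => s.2)
  obtain ⟨N0, hN0⟩ : ∃ N0 : ℕ, ∀ p : List A, N0 ≤ p.length →
      {p' : List A | M.eval p' = M.eval p ∧ N.eval p' = N.eval p}.Infinite := by
    obtain ⟨B, hB⟩ := (hfin.image List.length).bddAbove
    refine ⟨B + 1, fun p hp hf => ?_⟩
    have : p.length ∈ List.length '' (⋃ s : {s : σ × τ //
        {p : List A | M.eval p = s.1 ∧ N.eval p = s.2}.Finite},
        {p : List A | M.eval p = s.1.1 ∧ N.eval p = s.1.2}) := by
      refine ⟨p, ?_, rfl⟩
      rw [Set.mem_iUnion]
      exact ⟨⟨(M.eval p, N.eval p), hf⟩, rfl, rfl⟩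
    have := hB this
    omega
  refine ⟨{w : List A | w.length ≤ N0}.ncard, fun n => ?_⟩
  refine Set.ncard_le_ncard_of_injOn (fun w => w.take N0) ?_ ?_ (finite_le N0)
  · intro w _
    simp
  · intro w hw w' hw' h
    obtain ⟨hw1, hw2⟩ := hw
    obtain ⟨hw1', hw2'⟩ := hw'
    simp only at h
    rcases Nat.lt_or_ge n N0 with hn | hn
    · rwa [List.take_of_length_le (by omega), List.take_of_length_le (by omega)] at h
    · have e1 : w.take N0 ++ w.drop N0 = w := List.take_append_drop _ _
      have e2 : w'.take N0 ++ w'.drop N0 = w' := List.take_append_drop _ _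
      have hl : N0 ≤ (w.take N0).length := by rw [List.length_take]; omega
      have hinf := hN0 _ hl
      have hd : w.drop N0 = w'.drop N0 := by
        apply eq_of_infinite M S hM X hX N hN _ _ hinf
        · rw [List.length_drop, List.length_drop]; omega
        · rw [← hN, DFA.mem_accepts, ← e1, DFA.eval, DFA.evalFrom_of_append] at hw1
          exact hw1
        · rw [← hN, DFA.mem_accepts, ← e2, DFA.eval, DFA.evalFrom_of_append] at hw1'
          rw [h]
          exact hw1'
      rw [← e1, ← e2, h, hd]

theorem count_le (S : ANS A) (X : Set ℕ) (K : ℕ)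
    (hK : ∀ n : ℕ, {w : List A | w ∈ S.rep X ∧ w.length = n}.ncard ≤ K) (n : ℕ) :
    {x : ℕ | x ∈ X ∧ x < {v : List A | v ∈ S.lang ∧ v.length ≤ n}.ncard}.ncard ≤ K * (n + 1) := by
  have hsub : {x : ℕ | x ∈ X ∧ x < {v : List A | v ∈ S.lang ∧ v.length ≤ n}.ncard} ⊆
      S.val '' {w : List A | w ∈ S.rep X ∧ w.length ≤ n} := by
    rintro x ⟨hx, hlt⟩
    obtain ⟨w, hw, rfl⟩ := (val_bijOn S).surjOn (Set.mem_univ x)
    exact ⟨w, ⟨⟨hw, hx⟩, (val_lt_card_iff S hw n).1 hlt⟩, rfl⟩
  have hfin : {w : List A | w ∈ S.rep X ∧ w.length ≤ n}.Finite :=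
    (finite_le n).subset (fun _ hv => hv.2)
  refine (Set.ncard_le_ncard hsub (hfin.image _)).trans ((Set.ncard_image_le hfin).trans ?_)
  clear hsub hfin
  induction n with
  | zero =>
    have : {w : List A | w ∈ S.rep X ∧ w.length ≤ 0} = {w : List A | w ∈ S.rep X ∧ w.length = 0} := by
      ext w; simp
    rw [this]
    simpa using hK 0
  | succ n ih =>
    have : {w : List A | w ∈ S.rep X ∧ w.length ≤ n + 1} =
        {w : List A | w ∈ S.rep X ∧ w.length ≤ n} ∪
          {w : List A | w ∈ S.rep X ∧ w.length = n + 1} := by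
      ext w
      simp only [Set.mem_ofPred_eq, Set.mem_union]
      constructor
      · rintro ⟨h1, h2⟩
        rcases Nat.lt_or_ge w.length (n + 1) with h | h
        · exact Or.inl ⟨h1, by omega⟩
        · exact Or.inr ⟨h1, by omega⟩
      · rintro (⟨h1, h2⟩ | ⟨h1, h2⟩)
        · exact ⟨h1, by omega⟩
        · exact ⟨h1, by omega⟩
    rw [this]
    refine (Set.ncard_union_le _ _).trans ?_
    have := hK (n + 1)
    nlinarith

/-! ### Polynomials -/

open Polynomial Filter in
/-- The increments of an integer-valued polynomial of degree at least two with nonnegative values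
tend to infinity. -/
theorem tendsto_increment (P : ℚ[X]) (hdeg : 2 ≤ P.natDegree) (f : ℕ → ℕ)
    (hf : ∀ n : ℕ, P.eval (n : ℚ) = f n) (D : ℕ) :
    ∃ N1 : ℕ, ∀ n, N1 ≤ n → f n + D < f (n + 1) := by
  set Q : ℚ[X] := P.comp (X + 1) - P with hQ
  have hQe : ∀ n : ℕ, Q.eval (n : ℚ) = (f (n + 1) : ℚ) - f n := by
    intro n
    rw [hQ, eval_sub, eval_comp, ← hf, ← hf]
    simp
  have hQdeg : 0 < Q.degree := by
    by_contra hle
    have hC : Q = C (Q.coeff 0) := eq_C_of_degree_le_zero (not_lt.1 hle)
    set c := Q.coeff 0 with hc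
    have hlin : ∀ n : ℕ, (f n : ℚ) = f 0 + c * n := by
      intro n
      induction n with
      | zero => simp
      | succ n ih =>
        have h1 := hQe n
        rw [hC, eval_C] at h1
        push_cast
        linarith
    have hP : P = C (f 0 : ℚ) + C c * X := by
      apply eq_of_infinite_eval_eq
      apply (Set.infinite_range_of_injective (Nat.cast_injective (R := ℚ))).mono
      rintro _ ⟨n, rfl⟩
      change P.eval (n : ℚ) = _
      rw [hf, hlin]
      simp
    have : P.natDegree ≤ 1 := by
      rw [hP]
      compute_degree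
    omega
  have htop : Tendsto (fun x : ℚ => Q.eval x) atTop atTop := by
    rcases le_or_gt 0 Q.leadingCoeff with h | h
    · exact Q.tendsto_atTop_of_leadingCoeff_nonneg hQdeg h
    · exfalso
      have hbot := Q.tendsto_atBot_of_leadingCoeff_nonpos hQdeg h.le
      have hbot' : Tendsto (fun n : ℕ => Q.eval (n : ℚ)) atTop atBot :=
        hbot.comp tendsto_natCast_atTop_atTop
      obtain ⟨N, hN⟩ := eventually_atTop.1 (hbot'.eventually (eventually_lt_atBot (0 : ℚ)))
      have hdec : ∀ n, N ≤ n → f (n + 1) < f n := by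
        intro n hn
        have h1 := hN n hn
        rw [hQe] at h1
        have h2 : (f (n + 1) : ℚ) < f n := by linarith
        exact_mod_cast h2
      have hdec' : ∀ k, f (N + k) + k ≤ f N := by
        intro k
        induction k with
        | zero => simp
        | succ k ih =>
          have := hdec (N + k) (by omega)
          rw [show N + (k + 1) = N + k + 1 by ring]
          omega
      have := hdec' (f N + 1)
      omega
  have htop' : Tendsto (fun n : ℕ => Q.eval (n : ℚ)) atTop atTop :=
    htop.comp tendsto_natCast_atTop_atTop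
  obtain ⟨N, hN⟩ := eventually_atTop.1 (htop'.eventually (eventually_gt_atTop (D : ℚ)))
  refine ⟨N, fun n hn => ?_⟩
  have h1 := hN n hn
  rw [hQe] at h1
  have h2 : (f n : ℚ) + D < f (n + 1) := by linarith
  exact_mod_cast h2

theorem lt_of_increment {f : ℕ → ℕ} {D N1 : ℕ} (h : ∀ n, N1 ≤ n → f n + D < f (n + 1)) :
    ∀ a b, N1 ≤ a → a < b → f a + D < f b := by
  intro a b ha hab
  induction b, hab using Nat.le_induction with
  | base => exact h a ha
  | succ b hb ih =>
    have := h b (by omega)
    omega

theorem sparse_range (f : ℕ → ℕ) (h : ∀ D, ∃ N1 : ℕ, ∀ n, N1 ≤ n → f n + D < f (n + 1)) :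
    Sparse (Set.range f) := by
  intro D hD
  obtain ⟨N1, hN1⟩ := h D
  have hlt := lt_of_increment hN1
  obtain ⟨B, hB⟩ : ∃ B, ∀ n < N1, f n ≤ B := by
    refine ⟨(Finset.range N1).sup f, fun n hn => ?_⟩
    exact Finset.le_sup (f := f) (Finset.mem_range.2 hn)
  apply (Set.finite_Iic B).subset
  rintro x ⟨⟨a, rfl⟩, ⟨b, hb⟩⟩
  rw [Set.mem_Iic]
  by_contra hx
  rw [not_le] at hx
  have ha : N1 ≤ a := by
    by_contra h'
    have := hB a (by omega)
    omega
  have hb' : N1 ≤ b := by
    by_contra h'
    have := hB b (by omega)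
    omega
  rcases lt_trichotomy a b with h' | h' | h'
  · have := hlt a b ha h'
    omega
  · subst h'
    omega
  · have := hlt b a hb' h'
    omega

open Polynomial in
theorem eval_le (P : ℚ[X]) (f : ℕ → ℕ) (hf : ∀ n : ℕ, P.eval (n : ℚ) = f n) :
    ∃ C : ℕ, ∀ n, f n ≤ C * (n + 1) ^ P.natDegree := by
  obtain ⟨C, hC⟩ := exists_nat_gt (∑ i ∈ Finset.range (P.natDegree + 1), |P.coeff i|)
  refine ⟨C, fun n => ?_⟩
  have h1 : (f n : ℚ) ≤ C * ((n : ℚ) + 1) ^ P.natDegree := by
    rw [← hf, eval_eq_sum_range]
    calc ∑ i ∈ Finset.range (P.natDegree + 1), P.coeff i * (n : ℚ) ^ i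
        ≤ ∑ i ∈ Finset.range (P.natDegree + 1), |P.coeff i| * ((n : ℚ) + 1) ^ P.natDegree := by
          apply Finset.sum_le_sum
          intro i hi
          have hi' : i ≤ P.natDegree := by
            have := Finset.mem_range.1 hi
            omega
          have h2 : (n : ℚ) ^ i ≤ ((n : ℚ) + 1) ^ P.natDegree :=
            (pow_le_pow_left₀ (by positivity) (by linarith) i).trans
              (pow_le_pow_right₀ (by linarith [show (0:ℚ) ≤ n from by positivity]) hi')
          calc P.coeff i * (n : ℚ) ^ i ≤ |P.coeff i| * (n : ℚ) ^ i :=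
                mul_le_mul_of_nonneg_right (le_abs_self _) (by positivity)
            _ ≤ |P.coeff i| * ((n : ℚ) + 1) ^ P.natDegree :=
                mul_le_mul_of_nonneg_left h2 (abs_nonneg _)
      _ = (∑ i ∈ Finset.range (P.natDegree + 1), |P.coeff i|) * ((n : ℚ) + 1) ^ P.natDegree := by
          rw [Finset.sum_mul]
      _ ≤ C * ((n : ℚ) + 1) ^ P.natDegree :=
          mul_le_mul_of_nonneg_right hC.le (by positivity)
  exact_mod_cast h1

theorem le_count (f : ℕ → ℕ) (N1 C d : ℕ) (hN1 : ∀ n, N1 ≤ n → f n + 0 < f (n + 1))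
    (hC : ∀ n, f n ≤ C * (n + 1) ^ d) (V m : ℕ) (hV : C * (N1 + m) ^ d < V) :
    m ≤ {x : ℕ | x ∈ Set.range f ∧ x < V}.ncard := by
  have hlt := lt_of_increment hN1
  have hfin : {x : ℕ | x ∈ Set.range f ∧ x < V}.Finite :=
    (Set.finite_Iio V).subset (fun x hx => hx.2)
  have h1 : ((fun i => f (N1 + i)) '' Set.Iio m).ncard = m := by
    rw [Set.InjOn.ncard_image]
    · rw [Set.ncard_eq_toFinset_card', Set.toFinset_Iio, Nat.card_Iio]
    · intro i _ j _ hij
      simp only at hij
      rcases lt_trichotomy i j with h | h | h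
      · have := hlt (N1 + i) (N1 + j) (by omega) (by omega)
        omega
      · exact h
      · have := hlt (N1 + j) (N1 + i) (by omega) (by omega)
        omega
  rw [← h1]
  apply Set.ncard_le_ncard _ hfin
  rintro _ ⟨i, hi, rfl⟩
  refine ⟨⟨_, rfl⟩, ?_⟩
  have hi' : i < m := hi
  calc f (N1 + i) ≤ C * (N1 + i + 1) ^ d := hC _
    _ ≤ C * (N1 + m) ^ d := Nat.mul_le_mul_left _ (Nat.pow_le_pow_left (by omega) d)
    _ < V := hV

open Polynomial in
/-- Let `P ∈ ℚ[X]` with `P(ℕ) ⊆ ℕ` and `deg P ≥ 2`. If `P(ℕ)` is `S`-recognisable for an abstract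
numeration system `S = (L, A, <)`, then the language `L` is polynomial. -/
theorem result (S : ANS A) (P : ℚ[X]) (hP : ∀ n : ℕ, ∃ m : ℕ, P.eval (n : ℚ) = m)
    (hdeg : 2 ≤ P.natDegree)
    (hrec : S.Recognisable {m : ℕ | ∃ n : ℕ, P.eval (n : ℚ) = m}) : IsPolynomial S.lang := by
  choose f hf using hP
  have hX : {m : ℕ | ∃ n : ℕ, P.eval (n : ℚ) = m} = Set.range f := by
    ext m
    constructor
    · rintro ⟨n, hn⟩
      refine ⟨n, ?_⟩
      rw [hf] at hn
      exact_mod_cast hn
    · rintro ⟨n, rfl⟩
      exact ⟨n, hf n⟩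
  rw [hX] at hrec
  have hinc := tendsto_increment P hdeg f hf
  obtain ⟨K, hK⟩ := slender S _ (sparse_range f hinc) hrec
  obtain ⟨N1, hN1⟩ := hinc 0
  obtain ⟨C, hC⟩ := eval_le P f hf
  set d := P.natDegree with hd
  have hV : ∀ n : ℕ, {v : List A | v ∈ S.lang ∧ v.length ≤ n}.ncard ≤
      C * (N1 + (K * (n + 1) + 1)) ^ d := by
    intro n
    by_contra hlt
    have h1 := le_count f N1 C d hN1 hC _ (K * (n + 1) + 1) (not_le.1 hlt)
    have h2 := count_le S _ K hK n
    omega
  refine ⟨d, Asymptotics.IsBigO.of_bound (C * (N1 + 2 * K + 1) ^ d : ℕ) ?_⟩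
  filter_upwards [Filter.eventually_ge_atTop 1] with n hn
  rw [Real.norm_of_nonneg (by positivity), Real.norm_of_nonneg (by positivity)]
  have h1 : {w : List A | w ∈ S.lang ∧ w.length = n}.ncard ≤
      {v : List A | v ∈ S.lang ∧ v.length ≤ n}.ncard := by
    apply Set.ncard_le_ncard _ ((finite_le n).subset (fun _ hv => hv.2))
    rintro w ⟨hw1, hw2⟩
    exact ⟨hw1, hw2.le⟩
  have h2 : N1 + (K * (n + 1) + 1) ≤ (N1 + 2 * K + 1) * n := by nlinarith
  have h3 : {w : List A | w ∈ S.lang ∧ w.length = n}.ncard ≤
      C * (N1 + 2 * K + 1) ^ d * n ^ d := by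
    refine h1.trans ((hV n).trans ?_)
    rw [mul_assoc, ← mul_pow]
    exact Nat.mul_le_mul_left _ (Nat.pow_le_pow_left h2 d)
  exact_mod_cast h3

end Pool.Agent.Results.MP_8c22a7_lc.PolynomialLanguage
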